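import Pool.Agent.N290.RK.Stm2

/-!
# Project RK (helper290), leaf XP: estimates of `λ_j` and `p_j`
-/

set_option autoImplicit false

open Complex MeasureTheory Set Filter Topology
open scoped ENNReal

namespace Pool.Agent.N966.RK

open Pool.Agent.N290.RJ Pool.Agent.N290.RK

variable {d : ℕ}

theorem real_lin (T : ℂ →L[ℝ] ℝ) (ζ : ℂ) : T ζ = ζ.re * T 1 + ζ.im * T I := by
  have h : ζ = ζ.re • (1 : ℂ) + ζ.im • I := by
    apply Complex.ext <;> simp
  conv_lhs => rw [h]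
  rw [map_add, map_smul, map_smul, smul_eq_mul, smul_eq_mul]

theorem xj_I (f : E d → ℂ) (j : ℕ) (z ξ : E d) : xj f j z (I • ξ) = I * xj f j z ξ := by
  unfold xj
  rw [smul_comm, map_smul, smul_eq_mul]

theorem lam_pos (φ : ℂ → ℝ) (w : ℂ) {a : ℝ} (ha : 0 < a) : 0 < lam φ w a := by
  unfold lam
  positivity

theorem lam_pp (φ : ℂ → ℝ) (w : ℂ) {a : ℝ} (ha : 0 < a) (x : ℂ) :
    (lam φ w a : ℂ) * starRingEnd ℂ (pp φ w a * x) =
      2 * (φ w : ℂ) * starRingEnd ℂ (dw φ w) * starRingEnd ℂ x := by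
  have h : (lam φ w a : ℂ) ≠ 0 := by
    exact_mod_cast (lam_pos φ w ha).ne'
  unfold pp
  rw [map_mul, map_div₀, map_mul, map_mul, Complex.conj_ofReal, Complex.conj_ofReal, map_ofNat]
  field_simp

/-- the algebraic identity behind the estimate of `∂̄ λ_j` -/
theorem db_id (T : ℂ →L[ℝ] ℝ) (p a x1 x2 : ℝ) (x : ℂ) :
    (((2 * p * T x + 2 * a * x1 : ℝ) : ℂ) + I * ((2 * p * T (I * x) + 2 * a * x2 : ℝ) : ℂ)) / 2 -
      2 * (p : ℂ) * starRingEnd ℂ (((T 1 : ℝ) - I * (T I : ℝ)) / 2) * starRingEnd ℂ x =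
      (a : ℂ) * ((x1 : ℂ) + I * (x2 : ℂ)) := by
  have hc : starRingEnd ℂ (((T 1 : ℝ) - I * (T I : ℝ)) / 2) = ((T 1 : ℝ) + I * (T I : ℝ)) / 2 := by
    rw [map_div₀, map_sub, map_mul, Complex.conj_I, Complex.conj_ofReal, Complex.conj_ofReal,
      map_ofNat]
    ring
  have hx : starRingEnd ℂ x = (x.re : ℂ) - I * (x.im : ℂ) := by
    apply Complex.ext <;> simp
  have hre : (I * x).re = -x.im := by simp
  have him : (I * x).im = x.re := by simp
  rw [real_lin T x, real_lin T (I * x), hc, hx, hre, him]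
  push_cast
  linear_combination ((p : ℂ) * (T I : ℝ) * (x.im : ℂ)) * Complex.I_sq

theorem XP_of (d : ℕ) (h3 : R3a) (hA : XA d) (hF : XF d) : XP d := by
  intro K C A L
  refine ⟨1 + |20 * (1 + L) ^ 2 * (K + 2 * A * C ^ 2 * K)| +
    |20 * (1 + L) ^ 2 * (3 / 2 * K + 4 * A * C ^ 2 * K)| + |8 * A ^ 2 * C ^ 3 * K ^ 2|,
    by positivity, ?_⟩
  intro ε₂ φ χ h ω f D j
  have hA0 : 0 < A := by
    have h1 := D.hA
    have h2 := D.hL
    linarith
  have hL0 : 0 < L := by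
    have h2 := D.hL
    linarith
  have hK0 : 0 < K := by
    have h2 := D.hK
    linarith
  have hC0 : 0 < C := by
    have h2 := D.hC
    linarith
  obtain ⟨-, r2, r3, -, r5, r6⟩ := h3 φ L D.φ1 hL0 D.φ2 D.φ3 D.φ4
  have hXA := fun i => hA K C A h ω D.hK D.hC hA0 D.slow D.pos D.h1 D.h2 D.h3 D.h4 i
  have hfd : ContDiffOn ℝ 1 (fun w : E d => f (rad j • w)) (B d) :=
    cd_dil (cd_hol D.f1) (rad_nonneg j) (rad_lt_one j).le
  have hq : ContDiffOn ℝ 1 (fun w : E d => (f (rad j • w), al A h j w)) (B d) :=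
    hfd.prodMk (hXA j).1
  have hpj : ContDiffOn ℝ 1 (pj (d := d) φ A h f j) (B d) :=
    r2.comp (g := fun q : ℂ × ℝ => pp φ q.1 q.2)
      (f := fun w : E d => (f (rad j • w), al A h j w)) hq fun w hw => ((hXA j).2 w hw).1
  have hφd : ContDiffOn ℝ 1 (fun w : E d => φ (f (rad j • w))) (B d) :=
    (D.φ1.of_le one_le_two).comp_contDiffOn hfd
  have hlj : ContDiffOn ℝ 1 (lj (d := d) φ A h f j) (B d) := (hφd.pow 2).add ((hXA j).1.pow 2)
  refine ⟨hpj, hlj, fun z hz => ?_⟩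
  obtain ⟨a1, a2, a3, a4, a5, a6, a7⟩ := (hXA j).2 z hz
  have a1' : 0 < al A h (j + 1) z := ((hXA (j + 1)).2 z hz).1
  obtain ⟨s0, s1, u0, u1, -, -, f1, f2, f3⟩ := hF K C A L ε₂ φ χ h ω f D j z hz
  have hω : 0 ≤ ω (1 - N z) := (D.slow.2.1 _).1
  have hB := B_open.mem_nhds hz
  -- the ratio of `λ`
  have hlr : lj φ A h f (j + 1) z ≤ (1 + st j z / 64) * lj φ A h f j z := by
    have h1 := r3 (f (rad j • z)) (f (rad (j + 1) • z)) (al A h j z) (al A h (j + 1) z) a1' a5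
    have h2 : L * ‖f (rad (j + 1) • z) - f (rad j • z)‖ / al A h j z ≤ st j z / 256 := by
      rw [div_le_iff₀ a1]
      have h4 : L * ‖f (rad (j + 1) • z) - f (rad j • z)‖ ≤ L * (al A h j z / A * st j z) :=
        mul_le_mul_of_nonneg_left f1 hL0.le
      have h5 : L * (al A h j z / A * st j z) = L / A * (st j z * al A h j z) := by
        field_simp
      have h6 : L / A ≤ 1 / 256 := by
        rw [div_le_div_iff₀ hA0 (by norm_num)]
        have := D.hA
        linarith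
      have h7 : 0 ≤ st j z * al A h j z := mul_nonneg s0 a1.le
      have h8 := mul_le_mul_of_nonneg_right h6 h7
      linarith
    have h2' : 0 ≤ L * ‖f (rad (j + 1) • z) - f (rad j • z)‖ / al A h j z := by positivity
    have h4 : (1 + L * ‖f (rad (j + 1) • z) - f (rad j • z)‖ / al A h j z) ^ 2 ≤
        1 + st j z / 64 := by
      generalize L * ‖f (rad (j + 1) • z) - f (rad j • z)‖ / al A h j z = q at h2 h2'
      nlinarith
    refine h1.trans ?_
    rw [mul_comm]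
    exact mul_le_mul_of_nonneg_right h4 (lam_pos φ _ a1).le
  have hl2 : lj φ A h f (j + 1) z ≤ 2 * lj φ A h f j z := by
    refine hlr.trans (mul_le_mul_of_nonneg_right ?_ (lam_pos φ _ a1).le)
    linarith
  refine ⟨lam_pos φ _ a1, hlr, ?_, fun ξ => ⟨?_, ?_⟩⟩
  · have h1 := r5 (f (rad j • z)) (f (rad (j + 1) • z)) (al A h j z) (al A h (j + 1) z) a1' a5 hl2
    have hw : 0 ≤ ω (1 - N z) / uu z (rad j) * st j z := by positivity
    have h2 : ‖f (rad (j + 1) • z) - f (rad j • z)‖ + (al A h j z - al A h (j + 1) z) ≤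
        (K + 2 * A * C ^ 2 * K) * (ω (1 - N z) / uu z (rad j) * st j z) := by
      have h4 : K * (ω (1 - N z) / uu z (rad j)) * st j z +
          2 * A * C ^ 2 * K * (ω (1 - N z) / uu z (rad j)) * st j z =
          (K + 2 * A * C ^ 2 * K) * (ω (1 - N z) / uu z (rad j) * st j z) := by ring
      linarith
    have h4 : 20 * (1 + L) ^ 2 * (‖f (rad (j + 1) • z) - f (rad j • z)‖ +
        (al A h j z - al A h (j + 1) z)) ≤ 20 * (1 + L) ^ 2 * ((K + 2 * A * C ^ 2 * K) *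
          (ω (1 - N z) / uu z (rad j) * st j z)) :=
      mul_le_mul_of_nonneg_left h2 (by positivity)
    refine (h1.trans h4).trans ?_
    have h5 : 20 * (1 + L) ^ 2 * ((K + 2 * A * C ^ 2 * K) *
          (ω (1 - N z) / uu z (rad j) * st j z)) = 20 * (1 + L) ^ 2 * (K + 2 * A * C ^ 2 * K) *
          (ω (1 - N z) / uu z (rad j) * st j z) := by ring
    rw [h5, mul_assoc (1 + _ + _ + _)]
    refine mul_le_mul_of_nonneg_right ?_ hw
    have k1 := le_abs_self (20 * (1 + L) ^ 2 * (K + 2 * A * C ^ 2 * K))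
    have k2 := abs_nonneg (20 * (1 + L) ^ 2 * (3 / 2 * K + 4 * A * C ^ 2 * K))
    have k3 := abs_nonneg (8 * A ^ 2 * C ^ 3 * K ^ 2)
    linarith
  · -- the derivative of `p`
    obtain ⟨x1, x2, -, -⟩ := f3 ξ
    have hDf : HasFDerivAt (fun w : E d => f (rad j • w))
        (fderiv ℝ (fun w : E d => f (rad j • w)) z) z :=
      ((hfd.contDiffAt hB).differentiableAt one_ne_zero).hasFDerivAt
    have hDa : HasFDerivAt (al (d := d) A h j) (fderiv ℝ (al (d := d) A h j) z) z :=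
      (((hXA j).1.contDiffAt hB).differentiableAt one_ne_zero).hasFDerivAt
    have hopen : IsOpen {q : ℂ × ℝ | 0 < q.2} := isOpen_lt continuous_const continuous_snd
    have hpp : HasFDerivAt (fun q : ℂ × ℝ => pp φ q.1 q.2)
        (fderiv ℝ (fun q : ℂ × ℝ => pp φ q.1 q.2) (f (rad j • z), al A h j z))
        (f (rad j • z), al A h j z) :=
      ((r2.contDiffAt (hopen.mem_nhds a1)).differentiableAt one_ne_zero).hasFDerivAt
    have hcomp : HasFDerivAt (pj (d := d) φ A h f j) _ z :=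
      HasFDerivAt.comp z (g := fun q : ℂ × ℝ => pp φ q.1 q.2)
        (f := fun w : E d => (f (rad j • w), al A h j w)) hpp (hDf.prodMk hDa)
    have h1 : fderiv ℝ (pj (d := d) φ A h f j) z ξ =
        fderiv ℝ (fun q : ℂ × ℝ => pp φ q.1 q.2) (f (rad j • z), al A h j z)
          (xj f j z ξ, fderiv ℝ (al (d := d) A h j) z ξ) := by
      rw [hcomp.fderiv, ← x2]
      rfl
    rw [h1]
    refine (r6 (f (rad j • z)) (al A h j z) a1 _ _).trans ?_
    have hu7 : uu z (rad j) ^ 7 ≤ uu z (rad j) ^ 3 := pow_le_pow_of_le_one u0.le u1 (by norm_num)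
    have hl := len_nonneg z ξ
    have h2 : ‖xj f j z ξ‖ + |fderiv ℝ (al (d := d) A h j) z ξ| ≤
        (3 / 2 * K + 4 * A * C ^ 2 * K) * (ω (1 - N z) * uu z (rad j) ^ 3 * len z ξ) := by
      have h4 : 4 * A * C ^ 2 * K * ω (1 - N z) * uu z (rad j) ^ 7 * len z ξ ≤
          4 * A * C ^ 2 * K * ω (1 - N z) * uu z (rad j) ^ 3 * len z ξ := by
        gcongr
      have h5 := (a7 ξ).trans h4
      have h6 : 3 / 2 * K * ω (1 - N z) * uu z (rad j) ^ 3 * len z ξ +
          4 * A * C ^ 2 * K * ω (1 - N z) * uu z (rad j) ^ 3 * len z ξ =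
          (3 / 2 * K + 4 * A * C ^ 2 * K) * (ω (1 - N z) * uu z (rad j) ^ 3 * len z ξ) := by ring
      linarith
    have h4 : 20 * (1 + L) ^ 2 * (‖xj f j z ξ‖ + |fderiv ℝ (al (d := d) A h j) z ξ|) ≤
        20 * (1 + L) ^ 2 * ((3 / 2 * K + 4 * A * C ^ 2 * K) *
          (ω (1 - N z) * uu z (rad j) ^ 3 * len z ξ)) :=
      mul_le_mul_of_nonneg_left h2 (by positivity)
    refine h4.trans ?_
    have hw : 0 ≤ ω (1 - N z) * uu z (rad j) ^ 3 * len z ξ := by positivity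
    have h5 : 20 * (1 + L) ^ 2 * ((3 / 2 * K + 4 * A * C ^ 2 * K) *
          (ω (1 - N z) * uu z (rad j) ^ 3 * len z ξ)) =
          20 * (1 + L) ^ 2 * (3 / 2 * K + 4 * A * C ^ 2 * K) *
          (ω (1 - N z) * uu z (rad j) ^ 3 * len z ξ) := by ring
    rw [h5, mul_assoc (1 + _ + _ + _), mul_assoc (1 + _ + _ + _)]
    refine mul_le_mul_of_nonneg_right ?_ hw
    have k1 := abs_nonneg (20 * (1 + L) ^ 2 * (K + 2 * A * C ^ 2 * K))
    have k2 := le_abs_self (20 * (1 + L) ^ 2 * (3 / 2 * K + 4 * A * C ^ 2 * K))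
    have k3 := abs_nonneg (8 * A ^ 2 * C ^ 3 * K ^ 2)
    linarith
  · -- the `∂̄`-derivative of `λ`
    have hDf : HasFDerivAt (fun w : E d => f (rad j • w))
        (fderiv ℝ (fun w : E d => f (rad j • w)) z) z :=
      ((hfd.contDiffAt hB).differentiableAt one_ne_zero).hasFDerivAt
    have hDa : HasFDerivAt (al (d := d) A h j) (fderiv ℝ (al (d := d) A h j) z) z :=
      (((hXA j).1.contDiffAt hB).differentiableAt one_ne_zero).hasFDerivAt
    have hDφ : HasFDerivAt φ (fderiv ℝ φ (f (rad j • z))) (f (rad j • z)) :=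
      (D.φ1.differentiable two_ne_zero _).hasFDerivAt
    have hc := HasFDerivAt.comp z (g := φ) (f := fun w : E d => f (rad j • w)) hDφ hDf
    have hl := (hc.pow 2).add (hDa.pow 2)
    have hlr : HasFDerivAt (lj (d := d) φ A h f j) _ z := hl
    have hlc := (Complex.ofRealCLM.hasFDerivAt (x := lj (d := d) φ A h f j z)).comp z hlr
    have hval : ∀ η : E d, fderiv ℝ (fun w : E d => (lj φ A h f j w : ℂ)) z η =
        ((2 * φ (f (rad j • z)) * fderiv ℝ φ (f (rad j • z)) (xj f j z η) +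
          2 * al A h j z * fderiv ℝ (al (d := d) A h j) z η : ℝ) : ℂ) := by
      intro η
      obtain ⟨-, x2, -, -⟩ := f3 η
      have h1 : fderiv ℝ (fun w : E d => (lj φ A h f j w : ℂ)) z = _ := hlc.fderiv
      rw [h1, ← x2]
      simp
    have hdb : db (fun w : E d => (lj φ A h f j w : ℂ)) z ξ -
        (lj φ A h f j z : ℂ) * starRingEnd ℂ (pj φ A h f j z * xj f j z ξ) =
        (al A h j z : ℂ) * ((fderiv ℝ (al (d := d) A h j) z ξ : ℂ) +
          I * (fderiv ℝ (al (d := d) A h j) z (I • ξ) : ℂ)) := by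
      have h1 : (lj φ A h f j z : ℂ) * starRingEnd ℂ (pj φ A h f j z * xj f j z ξ) = _ :=
        lam_pp φ (f (rad j • z)) a1 (xj f j z ξ)
      rw [h1, db, hval, hval, xj_I]
      exact db_id (fderiv ℝ φ (f (rad j • z))) (φ (f (rad j • z))) (al A h j z) _ _ (xj f j z ξ)
    rw [hdb, norm_mul, Complex.norm_real, Real.norm_eq_abs, abs_of_pos a1]
    have h1 := a7 ξ
    have h2 := a7 (I • ξ)
    rw [len_I] at h2
    have hl := len_nonneg z ξ
    have h4 : ‖((fderiv ℝ (al (d := d) A h j) z ξ : ℝ) : ℂ) +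
        I * ((fderiv ℝ (al (d := d) A h j) z (I • ξ) : ℝ) : ℂ)‖ ≤
        2 * (4 * A * C ^ 2 * K * ω (1 - N z) * uu z (rad j) ^ 7 * len z ξ) := by
      refine (norm_add_le _ _).trans ?_
      rw [norm_mul, Complex.norm_I, one_mul, Complex.norm_real, Complex.norm_real,
        Real.norm_eq_abs, Real.norm_eq_abs]
      linarith
    have h5 : al A h j z * ‖((fderiv ℝ (al (d := d) A h j) z ξ : ℝ) : ℂ) +
        I * ((fderiv ℝ (al (d := d) A h j) z (I • ξ) : ℝ) : ℂ)‖ ≤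
        (A * C * K * (ω (1 - N z) / uu z (rad j))) *
          (2 * (4 * A * C ^ 2 * K * ω (1 - N z) * uu z (rad j) ^ 7 * len z ξ)) :=
      mul_le_mul a3 h4 (norm_nonneg _) (by positivity)
    refine h5.trans ?_
    have h6 : (A * C * K * (ω (1 - N z) / uu z (rad j))) *
          (2 * (4 * A * C ^ 2 * K * ω (1 - N z) * uu z (rad j) ^ 7 * len z ξ)) =
        8 * A ^ 2 * C ^ 3 * K ^ 2 * (ω (1 - N z) ^ 2 * len z ξ) * uu z (rad j) ^ 6 := by
      field_simp
      ring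
    have hw : 0 ≤ ω (1 - N z) ^ 2 * len z ξ := by positivity
    have hu6 : uu z (rad j) ^ 6 ≤ 1 := pow_le_one₀ u0.le u1
    have h7 : 8 * A ^ 2 * C ^ 3 * K ^ 2 * (ω (1 - N z) ^ 2 * len z ξ) * uu z (rad j) ^ 6 ≤
        8 * A ^ 2 * C ^ 3 * K ^ 2 * (ω (1 - N z) ^ 2 * len z ξ) :=
      mul_le_of_le_one_right (by positivity) hu6
    rw [h6]
    refine h7.trans ?_
    rw [mul_assoc (1 + _ + _ + _)]
    refine mul_le_mul_of_nonneg_right ?_ hw
    have k1 := abs_nonneg (20 * (1 + L) ^ 2 * (K + 2 * A * C ^ 2 * K))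
    have k2 := abs_nonneg (20 * (1 + L) ^ 2 * (3 / 2 * K + 4 * A * C ^ 2 * K))
    have k3 := le_abs_self (8 * A ^ 2 * C ^ 3 * K ^ 2)
    linarith

end Pool.Agent.N966.RK

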